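import Mathlib

/-!
# Definitions for the hand-in KoetheStrength (MP_b55e4c)

All rings are unital. The predicates are stated for one ring `R`; the statements `Q1`, `Koethe p`, ...
quantify over all rings of the universe `u`.
-/

set_option autoImplicit false

namespace Pool.KSS

universe u

/-! ### Predicates of one ring -/

/-- A ring is periodic: every `x` has `x ^ m = x ^ k` for some `m > k ≥ 1`. -/
def Per (R : Type u) [Ring R] : Prop := ∀ x : R, ∃ m k : ℕ, 1 ≤ k ∧ k < m ∧ x ^ m = x ^ k

/-- A ring is pi-UU: for every unit `v` some `v ^ i - 1`, `i ≥ 1`, is nilpotent. -/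
def PiUU (R : Type u) [Ring R] : Prop := ∀ v : Rˣ, ∃ i : ℕ, 1 ≤ i ∧ IsNilpotent ((v : R) ^ i - 1)

/-- Every unit has finite order. -/
def Torsion (R : Type u) [Ring R] : Prop := ∀ v : Rˣ, ∃ j : ℕ, 1 ≤ j ∧ v ^ j = 1

/-- `M_n(R)` is periodic. -/
def MatPer (R : Type u) [Ring R] (n : ℕ) : Prop := Per (Matrix (Fin n) (Fin n) R)

/-- `M_n(R)` is pi-UU. -/
def MatPiUU (R : Type u) [Ring R] (n : ℕ) : Prop := PiUU (Matrix (Fin n) (Fin n) R)

/-- In `M_n(R)` every unit has finite order. -/
def MatTorsion (R : Type u) [Ring R] (n : ℕ) : Prop := Torsion (Matrix (Fin n) (Fin n) R)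

/-- The integer `m` is `0` in `R`. -/
def Kills (m : ℕ) (R : Type u) [Ring R] : Prop := (m : R) = 0

/-- The left ideal `I` (`Ideal` is a left ideal) is nil. -/
def Nil (R : Type u) [Ring R] (I : Ideal R) : Prop := ∀ x ∈ I, IsNilpotent x

/-- The sum of two nil left ideals of `R` is nil. -/
def NilSum (R : Type u) [Ring R] : Prop :=
  ∀ I J : Ideal R, Nil R I → Nil R J → ∀ x ∈ I, ∀ y ∈ J, IsNilpotent (x + y)

/-- The ring is commutative modulo a nil two-sided ideal. -/
def NilComm (R : Type u) [Ring R] : Prop :=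
  ∃ I : Ideal R, I.IsTwoSided ∧ Nil R I ∧ ∀ x y : R, x * y - y * x ∈ I

/-- The ring has characteristic `p` and is the sum of the prime ring and a nil two-sided ideal. -/
def NilPrime (p : ℕ) (R : Type u) [Ring R] : Prop :=
  Kills p R ∧ ∃ N : Ideal R, N.IsTwoSided ∧ Nil R N ∧ ∀ x : R, ∃ k : ℤ, x - k ∈ N

/-- `R` is a finitely generated ring. -/
def FinGen (R : Type u) [Ring R] : Prop := ∃ s : Finset R, Subring.closure (s : Set R) = ⊤

/-- `R` is a prime ring. -/
def PrimeR (R : Type u) [Ring R] : Prop :=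
  (1 : R) ≠ 0 ∧ ∀ a b : R, (∀ r : R, a * r * b = 0) → a = 0 ∨ b = 0

/-- `R` has zero Jacobson radical. -/
def Semiprimitive (R : Type u) [Ring R] : Prop := Ring.jacobson R = ⊥

/-- `M` is a faithful simple module. -/
def FaithfulSimple (R : Type u) [Ring R] (M : Type u) [AddCommGroup M] [Module R M] : Prop :=
  IsSimpleModule R M ∧ ∀ r : R, (∀ m : M, r • m = 0) → r = 0

/-- `R` is a (left) primitive ring: it has a faithful simple module. -/
def PrimitiveR (R : Type u) [Ring R] : Prop :=
  ∃ (M : Type u) (_ : AddCommGroup M) (_ : Module R M), FaithfulSimple R M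

/-- `A` is algebraic over `F_p` (every element satisfies a nonzero polynomial). -/
def Alg (p : ℕ) [Fact p.Prime] (A : Type u) [Ring A] [Algebra (ZMod p) A] : Prop :=
  Algebra.IsAlgebraic (ZMod p) A

/-- For a nil two-sided ideal `I`, periodicity lifts from `M_n(R / I)` to `M_n(R)`. -/
def Lifts (R : Type u) [Ring R] : Prop :=
  ∀ (I : Ideal R) [I.IsTwoSided], Nil R I → ∀ n : ℕ, MatPer (R ⧸ I) n → MatPer R n

/-! ### Statements about all rings -/

/-- **The assertion of Q1**: all matrix rings over periodic rings are pi-UU. -/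
def Q1 : Prop := ∀ (R : Type u) [Ring R], Per R → ∀ n : ℕ, MatPiUU R n

/-- Matrix rings over algebraic algebras over prime fields are algebraic. -/
def AlgMat : Prop := ∀ (p : ℕ) [Fact p.Prime] (A : Type u) [Ring A] [Algebra (ZMod p) A],
  Alg p A → ∀ n : ℕ, Alg p (Matrix (Fin n) (Fin n) A)

/-- **Koethe's conjecture for rings of characteristic `p`**: the sum of two nil left ideals is nil. -/
def Koethe (p : ℕ) : Prop := ∀ (T : Type u) [Ring T], Kills p T → NilSum T

end Pool.KSS
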