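import Pool.Agent.H55.PUU.Prim
import Pool.Agent.H55.PUU.Split
import Pool.Agent.H55.KSS.Defs

/-!
# The exact strength of Q1: matrices over periodic rings and Koethe's conjecture (proof)
-/

set_option autoImplicit false

universe u

open Pool.PUU

namespace Pool.KSSOld

/-- (1) at the level of `Fin`. -/
theorem one (R : Type u) [Ring R] (c : ℕ) (hc : 0 < c)
    (hcR : (c : R) = 0) (n : ℕ) (h : PiUU (Matrix (Fin (2 * n)) (Fin (2 * n)) R)) :
    Per (Matrix (Fin n) (Fin n) R) := by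
  refine per_of_piUU hc hcR (h.equiv (Matrix.reindexRingEquiv R
    ((finSumFinEquiv (m := n) (n := n)).trans (finCongr (two_mul n).symm)).symm))

theorem result :
    (∀ (R : Type u) [Ring R] (c : ℕ), 0 < c → (c : R) = 0 → ∀ n : ℕ,
      PiUU (Matrix (Fin (2 * n)) (Fin (2 * n)) R) → Per (Matrix (Fin n) (Fin n) R)) ∧
    List.TFAE [
      Q1.{u},
      ∀ (R : Type u) [Ring R], Per R → PiUU (Matrix (Fin 4) (Fin 4) R),
      ∀ (R : Type u) [Ring R], Per R → ∀ n : ℕ, Per (Matrix (Fin n) (Fin n) R),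
      ∀ (R : Type u) [Ring R], Per R → ∀ (n : ℕ) (v : (Matrix (Fin n) (Fin n) R)ˣ),
        ∃ j : ℕ, 1 ≤ j ∧ v ^ j = 1,
      AlgMat.{u},
      ∀ (p : ℕ) (R : Type u) [Ring R], p.Prime → (p : R) = 0 → PrimitiveR R → Per R →
        ∀ n : ℕ, PiUU (Matrix (Fin n) (Fin n) R),
      (∀ p : ℕ, p.Prime → Koethe.{u} p) ∧
        ∀ (p : ℕ) (R : Type u) [Ring R], p.Prime → (p : R) = 0 → FinGen R → PrimeR R →
          Ring.jacobson R = ⊥ → Per R → ∀ n : ℕ, PiUU (Matrix (Fin n) (Fin n) R)] ∧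
    List.TFAE [
      ∀ p : ℕ, p.Prime → Koethe.{u} p,
      ∀ (R : Type u) [Ring R] (I : Ideal R) [I.IsTwoSided], (∀ x ∈ I, IsNilpotent x) → ∀ n : ℕ,
        Per (Matrix (Fin n) (Fin n) (R ⧸ I)) → Per (Matrix (Fin n) (Fin n) R),
      ∀ (R : Type u) [Ring R], Per R → NilComm R → ∀ n : ℕ, PiUU (Matrix (Fin n) (Fin n) R),
      ∀ p : ℕ, p.Prime → ∀ (R : Type u) [Ring R], NilPrime p R →
        PiUU (Matrix (Fin 2) (Fin 2) R)] := by
  have hone := one.{u}
  have h3 : List.TFAE [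
      ∀ p : ℕ, p.Prime → Koethe.{u} p,
      ∀ (R : Type u) [Ring R] (I : Ideal R) [I.IsTwoSided], (∀ x ∈ I, IsNilpotent x) → ∀ n : ℕ,
        Per (Matrix (Fin n) (Fin n) (R ⧸ I)) → Per (Matrix (Fin n) (Fin n) R),
      ∀ (R : Type u) [Ring R], Per R → NilComm R → ∀ n : ℕ, PiUU (Matrix (Fin n) (Fin n) R),
      ∀ p : ℕ, p.Prime → ∀ (R : Type u) [Ring R], NilPrime p R →
        PiUU (Matrix (Fin 2) (Fin 2) R)] := by
    tfae_have 1 → 2 := by
      intro hK R _ I _ hI n h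
      rcases Nat.eq_zero_or_pos n with rfl | hn
      · intro B
        exact ⟨2, 1, le_rfl, by norm_num, Subsingleton.elim _ _⟩
      · exact lift_of_koethe hK hI hn h
    tfae_have 2 → 3 := by
      intro h R _ hR hI n
      obtain ⟨I, hI2, hIn, hIc⟩ := hI
      refine (h R I hIn n ?_).piUU
      let CR : CommRing (R ⧸ I) :=
        { (inferInstance : Ring (R ⧸ I)) with
          mul_comm := fun a b => by
            obtain ⟨x, rfl⟩ := Ideal.Quotient.mk_surjective a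
            obtain ⟨y, rfl⟩ := Ideal.Quotient.mk_surjective b
            rw [← map_mul, ← map_mul, Ideal.Quotient.eq]
            exact hIc x y }
      exact per_comm (A := R ⧸ I) (hR.of_surj (Ideal.Quotient.mk I) Ideal.Quotient.mk_surjective) n
    tfae_have 3 → 4 := fun h p hp R _ hR => h R (hR.per hp) hR.nilComm 2
    tfae_have 4 → 1 := fun h p hp => koethe_of_piUU hp (h p hp)
    tfae_finish
  refine ⟨hone, ?_, h3⟩
  tfae_have 1 → 2 := fun h R _ hR => h R hR 4
  tfae_have 2 → 3 := by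
    intro h R _ hR n
    refine per_all (fun S _ hS => ?_) n R hR
    obtain ⟨c, hc, hcS⟩ := hS.char
    exact hone S c hc hcS 2 (h S hS)
  tfae_have 3 → 4 := by
    intro h R _ hR n v
    obtain ⟨m, k, h1, h2, h3⟩ := h R hR n (v : Matrix (Fin n) (Fin n) R)
    refine ⟨m - k, by omega, ?_⟩
    have h4 : v ^ m = v ^ k :=
      Units.ext (by rw [Units.val_pow_eq_pow_val, Units.val_pow_eq_pow_val, h3])
    have h6 : v ^ (m - k) * v ^ k = 1 * v ^ k := by
      rw [← pow_add, Nat.sub_add_cancel h2.le, h4, one_mul]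
    exact mul_right_cancel h6
  tfae_have 4 → 1 := by
    intro h R _ hR n v
    obtain ⟨j, hj, hv⟩ := h R hR n v
    refine ⟨j, hj, ?_⟩
    rw [← Units.val_pow_eq_pow_val, hv, Units.val_one, sub_self]
    exact IsNilpotent.zero
  tfae_have 3 ↔ 5 := algMat_iff.symm
  tfae_have 1 → 6 := by
    intro h p R _ _ _ _ hR n
    exact h R hR n
  tfae_have 6 → 3 := by
    intro h R _ hR n
    exact per_of_primitive (fun p S _ hp hpS hS hSp n =>
      hone S p hp.pos hpS n (h p S hp hpS hS hSp (2 * n))) hR n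
  tfae_have 1 → 7 := by
    intro h
    have h31 : (∀ (R : Type u) [Ring R], Per R → NilComm R → ∀ n : ℕ,
        PiUU (Matrix (Fin n) (Fin n) R)) → ∀ p : ℕ, p.Prime → Koethe.{u} p := (h3.out 2 0).1
    refine ⟨h31 ?_, ?_⟩
    · intro R _ hR _ n
      exact h R hR n
    intro p R _ _ _ _ _ _ hR n
    exact h R hR n
  tfae_have 7 → 3 := by
    rintro ⟨hK, h⟩ R _ hR n
    exact per_of_split hK (fun p S _ hp hpS hf hpr hj hSp n =>
      hone S p hp.pos hpS n (h p S hp hpS hf hpr hj hSp (2 * n))) hR n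
  tfae_finish

end Pool.KSSOld

namespace Pool.KSS

theorem main :
    (∀ (R : Type u) [Ring R] (c : ℕ), 0 < c → Kills c R → ∀ n : ℕ, MatPiUU R (2 * n) → MatPer R n) ∧
    List.TFAE [
      Q1.{u},
      ∀ (R : Type u) [Ring R], Per R → MatPiUU R 4,
      ∀ (R : Type u) [Ring R], Per R → ∀ n : ℕ, MatPer R n,
      ∀ (R : Type u) [Ring R], Per R → ∀ n : ℕ, MatTorsion R n,
      AlgMat.{u},
      ∀ (p : ℕ) (R : Type u) [Ring R], p.Prime → Kills p R → PrimitiveR R → Per R →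
        ∀ n : ℕ, MatPiUU R n,
      (∀ p : ℕ, p.Prime → Koethe.{u} p) ∧
        ∀ (p : ℕ) (R : Type u) [Ring R], p.Prime → Kills p R → FinGen R → PrimeR R →
          Semiprimitive R → Per R → ∀ n : ℕ, MatPiUU R n] ∧
    List.TFAE [
      ∀ p : ℕ, p.Prime → Koethe.{u} p,
      ∀ (R : Type u) [Ring R], Lifts R,
      ∀ (R : Type u) [Ring R], Per R → NilComm R → ∀ n : ℕ, MatPiUU R n,
      ∀ p : ℕ, p.Prime → ∀ (R : Type u) [Ring R], NilPrime p R → MatPiUU R 2] :=
  Pool.KSSOld.result.{u}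

end Pool.KSS
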